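import Pool.Agent.Helper30.BG.Goals

/-!
# Packet BG-D: `Y` is bounded in cones around the negative axis
-/

open InnerProductSpace Metric Set Filter Topology
open scoped ContDiff Laplacian

namespace Pool.Agent.Helper31.BG

open Pool.Agent.Helper30.BG

theorem contDiff_coord (i : Fin 3) : ContDiff ℝ 2 (fun x : E3 => x i) := by
  have e : (fun y : E3 => y i) = (EuclideanSpace.proj i : E3 →L[ℝ] ℝ) := by
    ext y; simp
  rw [e]; exact ContinuousLinearMap.contDiff _

theorem contDiff_refl (s : ℝ) : ContDiff ℝ 2 (refl s) := by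
  unfold Pool.Agent.Helper30.BG.refl
  exact contDiff_id.add ((contDiff_const.mul (contDiff_const.sub (contDiff_coord 0))).smul
    contDiff_const)

theorem norm_refl_le (s : ℝ) (x : E3) : ‖refl s x‖ ≤ ‖x‖ + 2 * |s| := by
  have h1 : ‖refl s x - refl s (refl s 0)‖ = ‖x - refl s 0‖ := dist_refl s x (refl s 0)
  rw [refl_refl, sub_zero] at h1
  rw [h1]
  refine (norm_sub_le _ _).trans ?_
  have h2 : ‖refl s (0 : E3)‖ = 2 * |s| := by
    unfold Pool.Agent.Helper30.BG.refl
    simp [norm_smul, norm_eb, abs_mul]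
  rw [h2]

theorem d (hPL : S_PL) (hA : S_A) : S_D := by
  intro u Y g a0 a1 α β κp κm M hY η hη
  have hα := hY.α_pos
  have hβ := hY.β_pos
  obtain ⟨s, hs⟩ : ∃ s : ℝ, s = min 0 (a0 / β) := ⟨_, rfl⟩
  have hs0 : s ≤ 0 := by rw [hs]; exact min_le_left _ _
  have hbs : β * s ≤ a0 := by
    have h1 : s ≤ a0 / β := by rw [hs]; exact min_le_right _ _
    rw [le_div_iff₀ hβ] at h1
    linarith
  obtain ⟨W, hWd⟩ : ∃ W : E3 → ℝ, W = fun x => (α * x 0 - u x) -
    (β * (refl s x) 0 - u (refl s x)) := ⟨_, rfl⟩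
  obtain ⟨m, hm⟩ : ∃ m : ℝ, m = (α - β) * s := ⟨_, rfl⟩
  have hWm : ∀ x : E3, s ≤ x 0 → m ≤ W x := by
    refine hPL W s m ?_ ?_ ?_ ?_
    · rw [hWd]
      exact ((contDiff_const.mul (contDiff_coord 0)).sub hY.cdu).sub
        ((contDiff_const.mul ((contDiff_coord 0).comp (contDiff_refl s))).sub
          (hY.cdu.comp (contDiff_refl s)))
    · intro x hx
      have h1 := (((HD2.coord 0 x).const_mul α).sub (HD2.mk' (hY.cdu.contDiffAt (x := x)))).sub
        ((((HD2.coord 0 (refl s x)).reflect).const_mul β).sub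
          (HD2.mk' (hY.cdu.contDiffAt (x := refl s x))).reflect)
      have h2 : Δ W x = (α * 0 - Δ u x) - (β * 0 - Δ u (refl s x)) := by
        rw [hWd]; exact h1.lap
      have h3 : Δ u (refl s x) = 0 := by
        refine hY.lapu_dn _ ?_
        have h4 : (refl s x) 0 = 2 * s - x 0 := refl_zero s x
        have h5 := hY.dn (refl s x) (by rw [h4]; linarith)
        rw [h4] at h5
        nlinarith
      have h6 := hY.lapu x
      rw [h2, h3]
      linarith
    · intro x hx
      have h1 : refl s x = x := by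
        unfold Pool.Agent.Helper30.BG.refl
        rw [hx]
        simp
      rw [hWd, hm]
      show (α - β) * s ≤ (α * x 0 - u x) - (β * (refl s x) 0 - u (refl s x))
      rw [h1, hx]
      linarith
    · intro δ hδ
      obtain ⟨R, hR⟩ := hY.subm δ hδ
      obtain ⟨C, hC⟩ : ∃ C : ℝ, ∀ z ∈ closedBall (0 : E3) R, β * z 0 - u z ≤ C := by
        have hc : ContinuousOn (fun z : E3 => β * z 0 - u z) (closedBall (0 : E3) R) :=
          ((continuous_const.mul (contDiff_coord 0).continuous).sub hY.cdu.continuous).continuousOn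
        obtain ⟨C, hC⟩ := ((isCompact_closedBall (0 : E3) R).bddAbove_image hc)
        exact ⟨C, fun z hz => hC ⟨z, hz, rfl⟩⟩
      refine ⟨-(α * s) + 2 * δ * |s| + max C 0, fun x hx => ?_⟩
      have h1 : α * s ≤ α * x 0 - u x := by
        rcases le_total 0 (x 0) with h | h
        · have := hY.up x h
          nlinarith
        · have := hY.dn x h
          nlinarith
      have h4 : (refl s x) 0 = 2 * s - x 0 := refl_zero s x
      have h2 : β * (refl s x) 0 - u (refl s x) ≤ δ * ‖refl s x‖ + max C 0 := by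
        rcases le_total R ‖refl s x‖ with h | h
        · have := hR (refl s x) (by rw [h4]; linarith) h
          have := le_max_right C 0
          linarith
        · have := hC (refl s x) (by rw [mem_closedBall, dist_zero_right]; exact h)
          have h5 := le_max_left C 0
          have h6 : 0 ≤ δ * ‖refl s x‖ := by positivity
          linarith
      have h3 := norm_refl_le s x
      rw [hWd]
      show _ ≤ (α * x 0 - u x) - (β * (refl s x) 0 - u (refl s x))
      nlinarith
  obtain ⟨r0, hr0⟩ := hA u Y g a0 a1 α β κp κm M hY (η / 4) (by positivity) 1 one_pos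
  refine ⟨(α - κp - m + κm) / β, max (max (r0 + 2 * |s|) (2 * |s|))
    (max (4 * |s| / η) (|a0| / (β * η))), fun y hy hyr => ?_⟩
  rw [max_le_iff, max_le_iff, max_le_iff] at hyr
  obtain ⟨⟨e1, e2⟩, e3, e4⟩ := hyr
  rw [div_le_iff₀ hη] at e3
  rw [div_le_iff₀ (by positivity)] at e4
  have hs' : |s| = -s := abs_of_nonpos hs0
  obtain ⟨x, hx⟩ : ∃ x, x = refl s y := ⟨_, rfl⟩
  have hxy : refl s x = y := by rw [hx, refl_refl]
  have hx0 : x 0 = 2 * s - y 0 := by rw [hx]; exact refl_zero s y
  have hn1 : ‖x‖ ≤ ‖y‖ + 2 * |s| := by rw [hx]; exact norm_refl_le s y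
  have hn2 : ‖y‖ ≤ ‖x‖ + 2 * |s| := by
    have := norm_refl_le s x
    rwa [hxy] at this
  have hyn := norm_nonneg y
  have hx1 : η / 2 * ‖y‖ ≤ x 0 := by rw [hx0]; nlinarith
  have hx2 : η / 4 * ‖x‖ ≤ x 0 := by nlinarith
  have hx3 : s ≤ x 0 := by
    have : 0 ≤ η / 2 * ‖y‖ := by positivity
    linarith
  have hY1 := hr0 x hx2 (by linarith)
  have hYup := hY.Yup x
  have hW := hWm x hx3
  rw [hWd] at hW
  have hW' : m ≤ (α * x 0 - u x) - (β * (refl s x) 0 - u (refl s x)) := hW
  rw [hxy] at hW'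
  have hy0 : y 0 ≤ 0 := by nlinarith
  have hdn := hY.dn y hy0
  have hu : u y ≤ a0 := by
    have h1 : β * y 0 ≤ -(‖y‖ * (β * η)) := by nlinarith
    have h2 := neg_abs_le a0
    linarith
  have hYdn := hY.Ydn y hu
  rw [le_div_iff₀ hβ]
  nlinarith

end Pool.Agent.Helper31.BG
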