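import Pool.Agent.Helper95.BG.Goals

set_option autoImplicit false

open Finset
open Pool.Agent.Helper65.LinSpace Pool.Agent.Helper78.Mpc Pool.Agent.Helper95.BG

namespace Pool.Agent.Helper31.BG.PkUNI

theorem runV_spec' {s : ℕ → ℝ} {L : Set (List Bool)} (hL : DSpace s L) :
    ∃ k q qk st b0 B0 T acc c : ℕ, ∀ (w : List Bool) (o Λ β : ℕ),
      s w.length ≤ o → 2 + k + k * (2 * o + 1) ≤ Λ → c + 2 * o + w.length + 3 ≤ β →
      (runV k q qk st b0 B0 T acc o Λ β (num w) = 1 ↔ w ∈ L) := by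
  classical
  obtain ⟨k, M, hM⟩ := hL
  have := M.finState
  have := M.finSym
  obtain ⟨a, ⟨eS⟩⟩ := Finite.exists_equiv_fin M.State
  obtain ⟨q, ⟨eY⟩⟩ := Finite.exists_equiv_fin M.Sym
  refine ⟨k, q, q ^ k, eS M.start, eY M.blank, a + q + 4, TT M eS eY,
    tab 2 a (fun i => if decS M eS i ∈ M.accept then 1 else 0), a + q + q ^ k, ?_⟩
  intro w o Λ β ho hΛ hβ
  obtain ⟨⟨t, ht, hacc⟩, hspace⟩ := hM w
  have hR : ∀ t, InR o (M.run w t) := by
    intro t i
    exact_mod_cast (hspace t i).trans ho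
  have hβ1 : a + q + 2 * o + w.length + 3 ≤ β := by omega
  have hq1 : q ^ k ≤ β := by omega
  have hrec := fun t => nrec_eq (eS := eS) (eY := eY) hR hβ1 hq1 hΛ t
  unfold runV
  set R : ℕ → ℕ := fun t => nrec (initV k (eS M.start) (eY M.blank) o Λ β)
    (fun _ R => stepV k q (q ^ k) (a + q + 4) (TT M eS eY) o Λ β (num w) R) t with hRdef
  have hRt : ∀ t, R t = tab β Λ (encC M eS eY o (M.run w t)) := fun t => (hrec t).1
  have hlt : ∀ t idx, encC M eS eY o (M.run w t) idx < β := fun t idx =>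
    encC_lt (hR t) (hrec t).2 hβ1 idx
  have hRlt : ∀ t, R t < β ^ Λ := fun t => by
    rw [hRt]
    exact tab_lt fun _ _ => hlt _ _
  -- halting is visible in the numbers
  have hhalt : ∀ t, (M.next w (M.run w t) = none ↔
      dig (a + q + 4) (TT M eS eY) (bsV k q (q ^ k) o β (num w) (R t)) = 0) := by
    intro t
    rw [hRt, bsV_eq (hR t) (hrec t).2 hβ1 hq1 hΛ]
    have h1 := dig_TT M eS eY (f := 0) (eS (M.run w t).state).2
      (codeO_lt (inputSym w (M.run w t).inp))
      (tab_lt (q := q) (m := k)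
        (d := fun i => symN M eY o (M.run w t) i (headN M o (M.run w t) i))
        (fun i _ => symN_lt (eY := eY) _ _)) (by omega)
    rw [add_zero] at h1
    rw [h1, tbl_eq (hR t)]
    unfold TM.next
    rcases M.step (M.run w t).state (inputSym w (M.run w t).inp)
      (fun i => (M.run w t).tape i ((M.run w t).head i)) with _ | r
    · simp
    · simp [ent]
  obtain ⟨t0, ht0, hP⟩ := iterate_find (R := R)
    (g := fun R => stepV k q (q ^ k) (a + q + 4) (TT M eS eY) o Λ β (num w) R)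
    (fun t => rfl) hRlt (P := fun x => dig (a + q + 4) (TT M eS eY)
      (bsV k q (q ^ k) o β (num w) x) = 0) ⟨t, (hhalt t).1 ht⟩
  have hh0 : M.next w (M.run w t0) = none := (hhalt t0).2 hP
  have hstay : ∀ t1, M.next w (M.run w t1) = none → ∀ s, M.run w (t1 + s) = M.run w t1 := by
    intro t1 h1 s
    induction s with
    | zero => rfl
    | succ s ih =>
      show (M.next w (M.run w (t1 + s))).getD (M.run w (t1 + s)) = _
      rw [ih, h1]
      rfl
  have hrun : M.run w (β ^ Λ) = M.run w t := by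
    have h1 := hstay t0 hh0 (β ^ Λ - t0)
    have h2 : t0 + (β ^ Λ - t0) = β ^ Λ := by omega
    rw [h2] at h1
    rw [h1]
    rcases le_total t0 t with h | h
    · have := hstay t0 hh0 (t - t0)
      rw [Nat.add_sub_cancel' h] at this
      exact this.symm
    · have := hstay t ht (t0 - t)
      rw [Nat.add_sub_cancel' h] at this
      exact this
  have hfin : dig β (R (β ^ Λ)) 0 = eS (M.run w t).state := by
    rw [hRt, dig_tab (fun _ _ => hlt _ _) (by omega), hrun]
    rfl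
  have hacc2 : dig 2 (tab 2 a (fun i => if decS M eS i ∈ M.accept then 1 else 0))
      (eS (M.run w t).state) = if (M.run w t).state ∈ M.accept then 1 else 0 := by
    rw [dig_tab (fun i _ => by split_ifs <;> norm_num) (eS (M.run w t).state).2, decS_eS]
  show dig 2 _ (dig β (R (β ^ Λ)) 0) = 1 ↔ _
  rw [hfin, hacc2, hacc]
  split_ifs with h <;> simp [h]

theorem thm : G_UNI := by
  intro s L hL
  obtain ⟨k, q, qk, st, b0, B0, T, acc, c, h⟩ := runV_spec' hL
  refine ⟨Nat.pair k (Nat.pair q (Nat.pair qk (Nat.pair st (Nat.pair b0 (Nat.pair B0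
    (Nat.pair T acc)))))), (k + 1) * 6 + c + 3, fun w Λ β hΛ hβ => ?_⟩
  unfold Helper78.Mpc.univ
  simp only [Nat.unpair_pair]
  obtain ⟨m, hm⟩ : ∃ m : ℕ, m = ⌈max (s w.length) 0⌉₊ := ⟨_, rfl⟩
  have hm1 : s w.length ≤ (m : ℝ) := by
    rw [hm]
    exact (le_max_left _ _).trans (Nat.le_ceil _)
  have hm2 : (m : ℝ) ≤ max (s w.length) 0 + 1 := by
    rw [hm]
    exact (Nat.ceil_lt_add_one (le_max_right _ _)).le
  have h0 : (0 : ℝ) ≤ max (s w.length) 0 := le_max_right _ _
  have h1 : (2 * m + 4) ≤ Λ / (k + 1) := by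
    rw [Nat.le_div_iff_mul_le (by omega)]
    have hr : ((2 * m + 4 : ℕ) : ℝ) * ((k + 1 : ℕ) : ℝ) ≤ (Λ : ℝ) := by
      refine le_trans ?_ hΛ
      push_cast
      have e1 : (2 * (m : ℝ) + 4) ≤ 6 * (max (s w.length) 0 + 1) := by linarith
      have e2 : (0 : ℝ) ≤ (k : ℝ) + 1 := by positivity
      calc (2 * (m : ℝ) + 4) * ((k : ℝ) + 1) ≤ 6 * (max (s w.length) 0 + 1) * ((k : ℝ) + 1) :=
            mul_le_mul_of_nonneg_right e1 e2
        _ = ((k : ℝ) + 1) * 6 * (max (s w.length) 0 + 1) := by ring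
        _ ≤ _ := mul_le_mul_of_nonneg_right (by
            have : (0 : ℝ) ≤ (c : ℝ) := Nat.cast_nonneg _
            linarith) (by linarith)
    exact_mod_cast hr
  have h3 : Λ / (k + 1) * (k + 1) ≤ Λ := Nat.div_mul_le_self _ _
  have h5 : Λ / (k + 1) ≤ Λ := Nat.div_le_self _ _
  unfold oo
  generalize Λ / (k + 1) = z at *
  refine h w _ _ _ ?_ ?_ ?_
  · refine hm1.trans ?_
    have : m ≤ z / 2 - 1 := by omega
    exact_mod_cast this
  · have h4 : 2 * (z / 2 - 1) + 2 ≤ z := by omega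
    have h7 : (2 * (z / 2 - 1) + 2) * (k + 1) ≤ z * (k + 1) := Nat.mul_le_mul_right _ h4
    generalize z / 2 - 1 = o at *
    nlinarith
  · omega

end Pool.Agent.Helper31.BG.PkUNI
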